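import Pool.Agent.W495.TC.Stms

set_option autoImplicit false

open Classical

namespace Pool.Agent.W493.TC

open Pool.Agent.W495.TA Pool.Agent.W495.TC

/-- the property as a property of multisets -/
def QM {G : Type} (Q : (κ : Type) → (κ → G → ℤ) → Prop) (M : Multiset (G → ℤ)) : Prop :=
  ∃ (κ : Type) (_ : Fintype κ) (t : κ → G → ℤ), Finset.univ.val.map t = M ∧ Q κ t

/-- number of occurrences -/
theorem card_fib {A κ : Type} [Fintype κ] (t : κ → A) (a : A) :
    Nat.card {k // t k = a} = (Finset.univ.val.map t).count a := by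
  rw [Multiset.count_map, Nat.card_eq_fintype_card, Fintype.card_subtype]
  have : (Finset.univ.filter (fun k => t k = a)).card =
    (Finset.univ.filter (fun k => a = t k)).card := by
    congr 1
    ext k
    simp [eq_comm]
  rw [this]
  rfl

theorem exists_equiv {A κ κ' : Type} [Fintype κ] [Fintype κ'] (t : κ → A) (t' : κ' → A)
    (h : Finset.univ.val.map t = Finset.univ.val.map t') : ∃ e : κ ≃ κ', ∀ k, t' (e k) = t k := by
  have hc : ∀ a : A, Nonempty ({k // t k = a} ≃ {k // t' k = a}) := by
    intro a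
    apply Finite.card_eq.mp
    rw [card_fib, card_fib, h]
  let e := fun a => Classical.choice (hc a)
  let E : κ ≃ κ' := (Equiv.sigmaFiberEquiv t).symm.trans
    ((Equiv.sigmaCongrRight e).trans (Equiv.sigmaFiberEquiv t'))
  refine ⟨E, ?_⟩
  intro k
  have : E k = (e (t k) ⟨k, rfl⟩ : {k' // t' k' = t k}).1 := rfl
  rw [this]
  exact (e (t k) ⟨k, rfl⟩).2

theorem QM_to {G : Type} {Q : (κ : Type) → (κ → G → ℤ) → Prop} (hQ : Closed G Q)
    {M : Multiset (G → ℤ)} (h : QM Q M) {κ : Type} [Fintype κ] (t : κ → G → ℤ)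
    (ht : Finset.univ.val.map t = M) : Q κ t := by
  obtain ⟨κ', _, t', ht', hq⟩ := h
  obtain ⟨e, he⟩ := exists_equiv t' t (by rw [ht', ht])
  exact hQ.reindex κ' κ e t' t he hq

theorem exists_family {A : Type} (M : Multiset A) : ∃ (n : ℕ) (t : Fin n → A),
    Finset.univ.val.map t = M := by
  induction M using Quotient.inductionOn with
  | _ l =>
    refine ⟨l.length, l.get, ?_⟩
    rw [Fin.univ_val_map, List.ofFn_get]
    rfl

theorem map_sum {A κ κ' : Type} [Fintype κ] [Fintype κ'] (t : κ → A) (t' : κ' → A) :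
    (Finset.univ : Finset (κ ⊕ κ')).val.map (Sum.elim t t') =
      Finset.univ.val.map t + Finset.univ.val.map t' := by
  rw [← Finset.univ_disjSum_univ, Finset.val_disjSum, Multiset.disjSum, Multiset.map_add,
    Multiset.map_map, Multiset.map_map]
  rfl

theorem QM_zero {G : Type} {Q : (κ : Type) → (κ → G → ℤ) → Prop} (hQ : Closed G Q) :
    QM Q 0 := by
  refine ⟨Empty, inferInstance, fun x => x.elim, ?_, hQ.empty _ _⟩
  simp

theorem QM_add {G : Type} {Q : (κ : Type) → (κ → G → ℤ) → Prop} (hQ : Closed G Q)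
    {M M' : Multiset (G → ℤ)} (h : QM Q M) (h' : QM Q M') : QM Q (M + M') := by
  obtain ⟨κ, _, t, ht, hq⟩ := h
  obtain ⟨κ', _, t', ht', hq'⟩ := h'
  refine ⟨κ ⊕ κ', inferInstance, Sum.elim t t', ?_, hQ.sum _ _ _ _ hq hq'⟩
  rw [map_sum, ht, ht']

theorem map_pair {A : Type} (f f' : A) :
    (Finset.univ : Finset (Fin 2)).val.map ![f, f'] = {f, f'} := by
  rw [Fin.univ_val_map]
  simp [List.ofFn_succ]
  rfl

theorem QM_pair {G : Type} {Q : (κ : Type) → (κ → G → ℤ) → Prop} (hQ : Closed G Q)
    (f : G → ℤ) : QM Q {f, -f} :=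
  ⟨Fin 2, inferInstance, ![f, -f], map_pair f (-f), hQ.pair f⟩

theorem QM_cancel {G : Type} {Q : (κ : Type) → (κ → G → ℤ) → Prop} (hQ : Closed G Q)
    (f : G → ℤ) (hf : PairCancel G Q f) {M : Multiset (G → ℤ)} (h : QM Q (M + {f, -f})) :
    QM Q M := by
  obtain ⟨n, t, ht⟩ := exists_family M
  refine ⟨Fin n, inferInstance, t, ht, ?_⟩
  apply hf
  apply QM_to hQ h
  rw [map_sum, ht, map_pair]

/-- signed multiplicity -/
noncomputable def dc {G : Type} (M : Multiset (G → ℤ)) (f : G → ℤ) : ℤ :=
  (M.count f : ℤ) - M.count (-f)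

theorem dcnt_eq {G κ : Type} [Fintype κ] (t : κ → G → ℤ) (f : G → ℤ) :
    dcnt t f = dc (Finset.univ.val.map t) f := by
  unfold dcnt dc
  rw [card_fib, card_fib]

theorem dc_add {G : Type} (M M' : Multiset (G → ℤ)) (f : G → ℤ) :
    dc (M + M') f = dc M f + dc M' f := by
  unfold dc
  rw [Multiset.count_add, Multiset.count_add]
  push_cast; ring

theorem dc_neg {G : Type} (M : Multiset (G → ℤ)) (f : G → ℤ) :
    dc (M.map (fun g => -g)) f = - dc M f := by
  unfold dc
  have h : ∀ g : G → ℤ, (M.map (fun g => -g)).count g = M.count (-g) := by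
    intro g
    have := Multiset.count_map_eq_count' (fun g : G → ℤ => -g) M neg_injective (-g)
    simp only [neg_neg] at this
    exact this
  rw [h, h, neg_neg]; ring

theorem dc_pair {G : Type} (g f : G → ℤ) : dc ({g, -g} : Multiset (G → ℤ)) f = 0 := by
  unfold dc
  simp only [Multiset.insert_eq_cons, Multiset.count_cons, Multiset.count_singleton]
  have h1 : (-f = -g) ↔ (f = g) := neg_inj
  have h2 : (-f = g) ↔ (f = -g) := neg_eq_iff_eq_neg
  simp only [h1, h2]
  push_cast; ring

/-- null families may be removed -/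
theorem QM_null {G : Type} {Q : (κ : Type) → (κ → G → ℤ) → Prop} (hQ : Closed G Q)
    (R : Set (G → ℤ)) (hR : ∀ f ∈ R, PairCancel G Q f) (n : ℕ) :
    ∀ (u M : Multiset (G → ℤ)), u.card = n → Even u.card → (∀ f ∈ u, f ∈ R ∨ -f ∈ R) →
      (∀ f, dc u f = 0) → QM Q (M + u) → QM Q M := by
  induction n using Nat.strong_induction_on with
  | _ n ih =>
    intro u M hn hev hmem hnull hq
    by_cases hu0 : u = 0
    · rw [hu0, add_zero] at hq; exact hq
    -- find a pair
    have hpair : ∃ (f : G → ℤ) (u' : Multiset (G → ℤ)), u = u' + {f, -f} := by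
      by_cases hall : ∃ f ∈ u, f ≠ 0
      · obtain ⟨f, hf, hf0⟩ := hall
        obtain ⟨v, hv⟩ := Multiset.exists_cons_of_mem hf
        have h1 : dc u f = 0 := hnull f
        unfold dc at h1
        have h2 : 0 < u.count f := Multiset.count_pos.mpr hf
        have h3 : 0 < u.count (-f) := by omega
        have h4 : -f ∈ u := Multiset.count_pos.mp h3
        have h5 : -f ≠ f := by
          intro h
          apply hf0
          funext g
          have := congrFun h g
          simp only [Pi.neg_apply] at this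
          show f g = 0
          omega
        rw [hv, Multiset.mem_cons] at h4
        obtain ⟨w, hw⟩ := Multiset.exists_cons_of_mem (h4.resolve_left h5)
        refine ⟨f, w, ?_⟩
        rw [hv, hw]
        simp only [Multiset.insert_eq_cons]
        rw [Multiset.add_cons, ← Multiset.singleton_add, ← Multiset.singleton_add (-f) w,
          add_comm w]
        rfl
      · push Not at hall
        obtain ⟨f, hf⟩ := Multiset.exists_mem_of_ne_zero hu0
        obtain ⟨v, hv⟩ := Multiset.exists_cons_of_mem hf
        have hv0 : v ≠ 0 := by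
          rintro rfl
          rw [hv] at hev
          simp at hev
        obtain ⟨f', hf'⟩ := Multiset.exists_mem_of_ne_zero hv0
        obtain ⟨w, hw⟩ := Multiset.exists_cons_of_mem hf'
        have e1 : f = 0 := hall f hf
        have e2 : f' = 0 := hall f' (by rw [hv]; exact Multiset.mem_cons_of_mem hf')
        refine ⟨0, w, ?_⟩
        rw [hv, hw, e1, e2]
        simp only [Multiset.insert_eq_cons, neg_zero]
        rw [Multiset.add_cons, ← Multiset.singleton_add, ← Multiset.singleton_add 0 w,
          add_comm w]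
        rfl
    obtain ⟨f, u', hu'⟩ := hpair
    have hcard : u.card = u'.card + 2 := by
      rw [hu']; simp
    have hq' : QM Q ((M + u') + {f, -f}) := by
      rw [add_assoc, ← hu']; exact hq
    have hfu : f ∈ u := by rw [hu']; simp
    have hq2 : QM Q (M + u') := by
      rcases hmem f hfu with h | h
      · exact QM_cancel hQ f (hR f h) hq'
      · apply QM_cancel hQ (-f) (hR _ h)
        have : ({-f, - -f} : Multiset (G → ℤ)) = {f, -f} := by
          rw [neg_neg]
          exact Multiset.pair_comm _ _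
        rw [this]; exact hq'
    apply ih u'.card (by omega) u' M rfl _ _ _ hq2
    · have : u'.card = u.card - 2 := by omega
      rw [this]
      rcases hev with ⟨r, hr⟩
      exact ⟨r - 1, by omega⟩
    · intro g hg
      exact hmem g (by rw [hu']; exact Multiset.mem_add.mpr (Or.inl hg))
    · intro g
      have := hnull g
      rw [hu', dc_add, dc_pair] at this
      omega

theorem QM_dup {G : Type} {Q : (κ : Type) → (κ → G → ℤ) → Prop} (hQ : Closed G Q)
    (T : Multiset (G → ℤ)) : QM Q (T + T.map (fun g => -g)) := by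
  induction T using Multiset.induction_on with
  | empty => simpa using QM_zero hQ
  | cons f T ih =>
    have := QM_add hQ (QM_pair hQ f) ih
    have h2 : f ::ₘ T + Multiset.map (fun g => -g) (f ::ₘ T) =
        {f, -f} + (T + Multiset.map (fun g => -g) T) := by
      rw [Multiset.map_cons]
      simp only [Multiset.insert_eq_cons, Multiset.add_cons, Multiset.cons_add,
        Multiset.singleton_add]
      rw [Multiset.cons_swap]
    rw [h2]; exact this

/-- combinations of good families -/
def GoodM {G : Type} (Q : (κ : Type) → (κ → G → ℤ) → Prop) (R : Set (G → ℤ))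
    (g : (G → ℤ) → ℤ) : Prop :=
  ∃ B : Multiset (G → ℤ), QM Q B ∧ Even B.card ∧ (∀ f ∈ B, f ∈ R ∨ -f ∈ R) ∧ ∀ f, dc B f = g f

theorem GoodM_zero {G : Type} {Q : (κ : Type) → (κ → G → ℤ) → Prop} (hQ : Closed G Q)
    (R : Set (G → ℤ)) : GoodM Q R (fun _ => 0) :=
  ⟨0, QM_zero hQ, by simp, by simp, fun f => by simp [dc]⟩

theorem GoodM_add {G : Type} {Q : (κ : Type) → (κ → G → ℤ) → Prop} (hQ : Closed G Q)
    (R : Set (G → ℤ)) {g g' : (G → ℤ) → ℤ} (h : GoodM Q R g) (h' : GoodM Q R g') :
    GoodM Q R (fun f => g f + g' f) := by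
  obtain ⟨B, h1, h2, h3, h4⟩ := h
  obtain ⟨B', h1', h2', h3', h4'⟩ := h'
  refine ⟨B + B', QM_add hQ h1 h1', ?_, ?_, ?_⟩
  · rw [Multiset.card_add]; exact h2.add h2'
  · intro f hf
    rcases Multiset.mem_add.mp hf with hf | hf
    · exact h3 f hf
    · exact h3' f hf
  · intro f
    rw [dc_add, h4, h4']

theorem GoodM_nat {G : Type} {Q : (κ : Type) → (κ → G → ℤ) → Prop} (hQ : Closed G Q)
    (R : Set (G → ℤ)) {g : (G → ℤ) → ℤ} (h : GoodM Q R g) (n : ℕ) :
    GoodM Q R (fun f => n * g f) := by
  induction n with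
  | zero => simpa using GoodM_zero hQ R
  | succ n ih =>
    have := GoodM_add hQ R ih h
    have h2 : (fun f => ((n + 1 : ℕ) : ℤ) * g f) = (fun f => (n : ℤ) * g f + g f) := by
      funext f; push_cast; ring
    rw [h2]; exact this

theorem GoodM_sum {G : Type} {Q : (κ : Type) → (κ → G → ℤ) → Prop} (hQ : Closed G Q)
    (R : Set (G → ℤ)) {ι : Type} (s : Finset ι) (g : ι → (G → ℤ) → ℤ)
    (h : ∀ i, GoodM Q R (g i)) : GoodM Q R (fun f => ∑ i ∈ s, g i f) := by
  induction s using Finset.induction_on with
  | empty => simpa using GoodM_zero hQ R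
  | insert a s ha ih =>
    have := GoodM_add hQ R (h a) ih
    have h2 : (fun f => ∑ i ∈ insert a s, g i f) = (fun f => g a f + ∑ i ∈ s, g i f) := by
      funext f; rw [Finset.sum_insert ha]
    rw [h2]; exact this

theorem group : S_group := by
  intro G Q hQ R hR ι _ β b hb m κ _ t ht hev hdc
  letI : Fintype κ := Fintype.ofFinite κ
  have hgood : ∀ i, GoodM Q R (fun f => m i * dcnt (b i) f) := by
    intro i
    haveI := (hb i).fin
    letI : Fintype (β i) := Fintype.ofFinite _
    have hp : GoodM Q R (fun f => dcnt (b i) f) := by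
      refine ⟨Finset.univ.val.map (b i), ⟨β i, inferInstance, b i, rfl, (hb i).pos⟩, ?_, ?_, ?_⟩
      · rw [Multiset.card_map]
        have := (hb i).even
        rw [Nat.card_eq_fintype_card] at this
        exact this
      · intro f hf
        rw [Multiset.mem_map] at hf
        obtain ⟨k, _, rfl⟩ := hf
        exact Or.inl ((hb i).mem k)
      · intro f
        show _ = dcnt (b i) f
        rw [dcnt_eq]
    have hn : GoodM Q R (fun f => - dcnt (b i) f) := by
      refine ⟨Finset.univ.val.map (fun k => - b i k),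
        ⟨β i, inferInstance, fun k => - b i k, rfl, (hb i).neg⟩, ?_, ?_, ?_⟩
      · rw [Multiset.card_map]
        have := (hb i).even
        rw [Nat.card_eq_fintype_card] at this
        exact this
      · intro f hf
        rw [Multiset.mem_map] at hf
        obtain ⟨k, _, rfl⟩ := hf
        exact Or.inr (by rw [neg_neg]; exact (hb i).mem k)
      · intro f
        show _ = -dcnt (b i) f
        rw [dcnt_eq, ← dc_neg, Multiset.map_map]
        rfl
    rcases Int.eq_nat_or_neg (m i) with ⟨n, hn' | hn'⟩
    · rw [hn']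
      exact GoodM_nat hQ R hp n
    · have := GoodM_nat hQ R hn n
      have h2 : (fun f => m i * dcnt (b i) f) = (fun f => (n : ℤ) * -dcnt (b i) f) := by
        funext f; rw [hn']; ring
      rw [h2]; exact this
  obtain ⟨B, hB1, hB2, hB3, hB4⟩ := GoodM_sum hQ R Finset.univ _ hgood
  set T : Multiset (G → ℤ) := Finset.univ.val.map t with hT
  have hcardT : T.card = Nat.card κ := by
    rw [hT, Multiset.card_map, Nat.card_eq_fintype_card]
    rfl
  have hmemT : ∀ f ∈ T, f ∈ R := by
    intro f hf
    rw [hT, Multiset.mem_map] at hf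
    obtain ⟨k, _, rfl⟩ := hf
    exact ht k
  have hq : QM Q (T + (T.map (fun g => -g) + B)) := by
    rw [← add_assoc]
    exact QM_add hQ (QM_dup hQ T) hB1
  have hfin : QM Q T := by
    apply QM_null hQ R hR _ (T.map (fun g => -g) + B) T rfl _ _ _ hq
    · rw [Multiset.card_add, Multiset.card_map, hcardT]
      exact hev.add hB2
    · intro f hf
      rcases Multiset.mem_add.mp hf with hf | hf
      · rw [Multiset.mem_map] at hf
        obtain ⟨g, hg, rfl⟩ := hf
        exact Or.inr (by rw [neg_neg]; exact hmemT g hg)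
      · exact hB3 f hf
    · intro f
      have h1 : dc B f = ∑ i, m i * dcnt (b i) f := hB4 f
      rw [dc_add, dc_neg, h1, ← hdc f, dcnt_eq]
      ring
  exact QM_to hQ hfin t rfl

end Pool.Agent.W493.TC
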