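import Pool.Agent.W495.TC.Stms

set_option autoImplicit false

open Classical

namespace Pool.Agent.W493.TC

open Pool.Agent.W495.TA Pool.Agent.W495.TC

theorem semi_mulI {G X : Type} [Group G] [MulAction G X] (s : X → ℤ) (hs : Semi G s) (x₀ : X)
    (h0 : s x₀ = 1) (g : G) (x : X) : s (g • x) = s (g • x₀) * s x := by
  rcases hs g with h | h
  · rw [h, h, h0, one_mul]
  · rw [h, h, h0]; ring

theorem indep : S_indep := by
  intro G ι _ _ X _ s x₀ hs1 hsemi hs0 n hn e he z hz f hf
  let χ : ι → (G →* ℚ) := fun i =>
    { toFun := fun g => (s i (g • x₀ i) : ℚ)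
      map_one' := by
        rw [one_smul, hs0]; norm_num
      map_mul' := by
        intro g h
        rw [mul_smul, semi_mulI (s i) (hsemi i) (x₀ i) (hs0 i) g]
        push_cast; rfl }
  have hχ : ∀ i g, χ i g = (s i (g • x₀ i) : ℚ) := fun i g => rfl
  by_cases hex : ∃ i0, e i0 = f
  swap
  · push Not at hex
    apply Finset.sum_eq_zero
    intro i _
    rw [if_neg (hex i), mul_zero]
  obtain ⟨i0, hi0⟩ := hex
  have hi0g : ∀ g, f g = n * s i0 (g • x₀ i0) := by
    rcases he i0 with h | h
    · exact absurd (hi0 ▸ h) hf
    · intro g; rw [← hi0]; exact h g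
  let w : ι → ℚ := fun i => if e i = 0 then 0 else z i
  have hn' : (n : ℚ) ≠ 0 := by exact_mod_cast hn.ne'
  -- the relation
  have hrel : ∀ g, ∑ i, w i * χ i g = 0 := by
    intro g
    have h1 := hz g
    have h2 : ∀ i, z i * (e i g : ℚ) = n * (w i * χ i g) := by
      intro i
      by_cases h0 : e i = 0
      · simp [w, h0]
      · have h3 := (he i).resolve_left h0 g
        simp only [w, if_neg h0]
        rw [h3, hχ]
        push_cast
        ring
    simp only [h2] at h1
    rw [← Finset.mul_sum] at h1
    exact (mul_eq_zero.mp h1).resolve_left hn'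
  have hli := linearIndependent_iff'.mp (linearIndependent_monoidHom G ℚ)
    (Finset.univ.image χ) (fun ψ => ∑ i ∈ Finset.univ.filter (fun i => χ i = ψ), w i) (by
      funext g
      rw [Finset.sum_apply, Pi.zero_apply, ← hrel g]
      rw [← Finset.sum_fiberwise_of_maps_to (s := Finset.univ) (t := Finset.univ.image χ) (g := χ)
        (fun i hi => Finset.mem_image_of_mem _ hi)]
      apply Finset.sum_congr rfl
      intro ψ _
      rw [Pi.smul_apply, smul_eq_mul, Finset.sum_mul]
      apply Finset.sum_congr rfl
      intro i hi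
      rw [(Finset.mem_filter.mp hi).2]) (χ i0) (Finset.mem_image_of_mem _ (Finset.mem_univ _))
  rw [Finset.sum_filter] at hli
  refine Eq.trans ?_ hli
  apply Finset.sum_congr rfl
  intro i _
  by_cases h0 : e i = 0
  · have h1 : e i ≠ f := by rw [h0]; exact hf.symm
    rw [if_neg h1]
    simp [w, h0]
  · have h3 := (he i).resolve_left h0
    have hiff : e i = f ↔ χ i = χ i0 := by
      constructor
      · intro h
        ext g
        rw [hχ, hχ]
        have := congrFun h g
        rw [h3 g, hi0g g] at this
        have h4 := mul_left_cancel₀ hn.ne' this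
        rw [h4]
      · intro h
        funext g
        rw [h3 g, hi0g g]
        have := DFunLike.congr_fun h g
        rw [hχ, hχ] at this
        have h5 : s i (g • x₀ i) = s i0 (g • x₀ i0) := by exact_mod_cast this
        rw [h5]
    by_cases h4 : e i = f
    · rw [if_pos h4, if_pos (hiff.mp h4)]
      simp [w, h0]
    · rw [if_neg h4, if_neg (fun h => h4 (hiff.mpr h))]
      simp

end Pool.Agent.W493.TC
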