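import Pool.Agent.W495.TC.Stms

set_option autoImplicit false

open Classical

namespace Pool.Agent.W493.TC

open Pool.Agent.W495.TA Pool.Agent.W495.TC

section loc

variable {G X : Type} [Group G] [Fintype G] [Fintype X] [MulAction G X]

theorem semi_mul' (s : X → ℤ) (hs : Semi G s) (x₀ : X)
    (h0 : s x₀ = 1) (g : G) (x : X) : s (g • x) = s (g • x₀) * s x := by
  rcases hs g with h | h
  · rw [h, h, h0, one_mul]
  · rw [h, h, h0]; ring

theorem smul_c (c : G) (hc : Setting G X c) (g : G) (x : X) : g • c • x = c • g • x := by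
  rw [smul_smul, smul_smul, hc.comm]

/-- sums of odd functions -/
theorem sum_odd (c : G) (hc : Setting G X c) (s : X → ℤ) (hs : IsSign c s) (η : X → ℤ)
    (hη : ∀ x, η (c • x) = -η x) :
    ∑ x, s x * η x = 2 * ∑ x, if s x = 1 then η x else 0 := by
  have h1 : ∀ x, s x * η x = (if s x = 1 then η x else 0) + (if s (c • x) = 1 then η (c • x) else 0) := by
    intro x
    rw [hs.odd, hη]
    rcases hs.sign x with h | h
    · rw [h]; norm_num
    · rw [h]; norm_num
  simp only [h1]
  rw [Finset.sum_add_distrib]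
  have h2 : ∑ x, (if s (c • x) = 1 then η (c • x) else 0) = ∑ x, if s x = 1 then η x else 0 :=
    Equiv.sum_comp (MulAction.toPerm c) (fun x => if s x = 1 then η x else 0)
  rw [h2]; ring

theorem sum_act (s : X → ℤ) (hsg : ∀ x, s x = 1 ∨ s x = -1) (hs : Semi G s) (x₀ : X)
    (h0 : s x₀ = 1) (η : X → ℤ) (g : G) :
    ∑ x, s x * η (g • x) = s (g • x₀) * ∑ x, s x * η x := by
  have h1 : ∑ x, s x * η x = ∑ x, s (g • x) * η (g • x) :=
    (Equiv.sum_comp (MulAction.toPerm g) (fun x => s x * η x)).symm
  rw [h1, Finset.mul_sum]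
  apply Finset.sum_congr rfl
  intro x _
  rw [semi_mul' s hs x₀ h0 g x]
  have h2 : s (g • x₀) * s (g • x₀) = 1 := by
    rcases hsg (g • x₀) with h | h <;> rw [h] <;> norm_num
  calc s x * η (g • x) = (s (g • x₀) * s (g • x₀)) * (s x * η (g • x)) := by rw [h2, one_mul]
    _ = _ := by ring

theorem nf_act (D : Subgroup G) (ε : X → ℤ) (g h : G) (x : X) :
    nf D ε (g • x) h = nf D ε x (h * g) := by
  unfold nf
  simp only [mul_smul]

theorem nf_odd (c : G) (hc : Setting G X c) (D : Subgroup G) (ε : X → ℤ) (hε : IsSign c ε) (x : X) :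
    nf D ε (c • x) = - nf D ε x := by
  funext g
  unfold nf
  rw [Pi.neg_apply, ← Finset.sum_neg_distrib]
  apply Finset.sum_congr rfl
  intro d _
  rw [smul_c c hc, smul_c c hc, hε.odd]
  split_ifs <;> simp

theorem loc1 (c : G) (hc : Setting G X c) (D : Subgroup G) (ε : X → ℤ) (hε : IsSign c ε)
    (s : X → ℤ) (hs : IsSign c s) (hsemi : Semi G s) (x₀ : X) (h0 : s x₀ = 1) (F : ℤ)
    (hF : F = ∑ x, if s x = 1 then ε x else 0) (g : G) :
    ∑ x, s x * nf D ε x g = 2 * F * nf D s x₀ g := by
  have h1 : ∑ x, s x * nf D ε x g = ∑ d : G, if d ∈ D then ∑ x, s x * ε (d • g • x) else 0 := by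
    unfold nf
    simp only [Finset.mul_sum]
    rw [Finset.sum_comm]
    apply Finset.sum_congr rfl
    intro d _
    split_ifs with hd
    · rfl
    · simp
  rw [h1]
  unfold nf
  rw [Finset.mul_sum]
  apply Finset.sum_congr rfl
  intro d _
  split_ifs with hd
  · have h2 : ∀ x, ε (d • g • x) = ε ((d * g) • x) := by
      intro x; rw [mul_smul]
    simp only [h2]
    rw [sum_act s hs.sign hsemi x₀ h0 ε (d * g), sum_odd c hc s hs ε hε.odd, ← hF, mul_smul]
    ring
  · simp

theorem loc2 (D : Subgroup G) (s : X → ℤ) (hsemi : Semi G s) (x₀ : X) (h0 : s x₀ = 1) (x : X) :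
    nf D s x = s x • nf D s x₀ := by
  funext g
  rw [Pi.smul_apply, smul_eq_mul]
  unfold nf
  rw [Finset.mul_sum]
  apply Finset.sum_congr rfl
  intro d _
  split_ifs with hd
  · have h2 : ∀ x : X, d • g • x = (d * g) • x := by
      intro x; rw [mul_smul]
    rw [h2, h2, semi_mul' s hsemi x₀ h0 (d * g) x]
    ring
  · simp

theorem loc3 (D : Subgroup G) (s : X → ℤ) (hsg : ∀ x, s x = 1 ∨ s x = -1) (hsemi : Semi G s)
    (x₀ : X) (h0 : s x₀ = 1) :
    nf D s x₀ = 0 ∨ ∀ g, nf D s x₀ g = Nat.card D * s (g • x₀) := by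
  by_cases hex : ∃ d0 ∈ D, s (d0 • x₀) = -1
  · obtain ⟨d0, hd0, hs0⟩ := hex
    left
    funext g
    have h1 : nf D s x₀ g = - nf D s x₀ g := by
      conv_lhs => unfold nf
      unfold nf
      rw [← Finset.sum_neg_distrib]
      rw [← Equiv.sum_comp (Equiv.mulLeft d0) (fun d : G => if d ∈ D then s (d • g • x₀) else 0)]
      apply Finset.sum_congr rfl
      intro d _
      have hiff : (Equiv.mulLeft d0) d ∈ D ↔ d ∈ D := Subgroup.mul_mem_cancel_left D hd0
      by_cases hd : d ∈ D
      · rw [if_pos (hiff.mpr hd), if_pos hd]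
        show s ((d0 * d) • g • x₀) = _
        rw [mul_smul, semi_mul' s hsemi x₀ h0 d0, hs0]
        ring
      · rw [if_neg (fun h => hd (hiff.mp h)), if_neg hd]; simp
    show nf D s x₀ g = 0
    omega
  · push Not at hex
    right
    intro g
    unfold nf
    have h1 : ∀ d : G, (if d ∈ D then s (d • g • x₀) else 0) =
        if d ∈ D then s (g • x₀) else 0 := by
      intro d
      split_ifs with hd
      · rw [semi_mul' s hsemi x₀ h0 d, (hsg (d • x₀)).resolve_right (hex d hd), one_mul]
      · rfl
    simp only [h1]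
    rw [← Finset.sum_filter, Finset.sum_const, nsmul_eq_mul]
    congr 2
    rw [← Fintype.card_subtype, Nat.card_eq_fintype_card]

theorem loc4 (c : G) (hc : Setting G X c) (D : Subgroup G) (ε : X → ℤ) (hε : IsSign c ε)
    (hcard : Fintype.card X ≤ 6) (s : X → ℤ) (hs : IsSign c s)
    (hinj : ∀ x y, nf D ε x = nf D ε y → s x = s y) (x₀ : X) (h0 : s x₀ = 1) :
    Function.Injective (nf (X := X) D ε) ∨ ∀ x, s x = 1 → nf D ε x = nf D ε x₀ := by
  by_cases hi : Function.Injective (nf (X := X) D ε)
  · exact Or.inl hi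
  right
  intro x hx
  by_contra hne
  -- partners
  have hpart : ∀ y : X, ∃ y' : X, y' ≠ y ∧ nf D ε y' = nf D ε y := by
    unfold Function.Injective at hi
    push Not at hi
    obtain ⟨a, b, hab, hab'⟩ := hi
    intro y
    obtain ⟨g, hg⟩ := hc.trans a y
    refine ⟨g • b, ?_, ?_⟩
    · rw [← hg]
      intro h
      exact hab' (MulAction.injective g h).symm
    · rw [← hg]
      funext h
      rw [nf_act, nf_act, hab]
  choose pr hpr1 hpr2 using hpart
  have hsc : ∀ y, s y = 1 → s (c • y) = -1 := by
    intro y hy; rw [hs.odd, hy]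
  -- the four values
  let y : Fin 4 → X := ![x₀, c • x₀, x, c • x]
  have hN : Function.Injective (fun i => nf D ε (y i)) := by
    have e01 : nf D ε x₀ ≠ nf D ε (c • x₀) := by
      intro h
      have := hinj _ _ h
      rw [h0, hsc x₀ h0] at this
      exact absurd this (by norm_num)
    have e02 : nf D ε x₀ ≠ nf D ε x := fun h => hne h.symm
    have e03 : nf D ε x₀ ≠ nf D ε (c • x) := by
      intro h
      have := hinj _ _ h
      rw [h0, hsc x hx] at this
      exact absurd this (by norm_num)
    have e12 : nf D ε (c • x₀) ≠ nf D ε x := by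
      intro h
      have := hinj _ _ h
      rw [hx, hsc x₀ h0] at this
      exact absurd this (by norm_num)
    have e13 : nf D ε (c • x₀) ≠ nf D ε (c • x) := by
      intro h
      rw [nf_odd c hc D ε hε, nf_odd c hc D ε hε] at h
      exact e02 (neg_inj.mp h)
    have e23 : nf D ε x ≠ nf D ε (c • x) := by
      intro h
      have := hinj _ _ h
      rw [hx, hsc x hx] at this
      exact absurd this (by norm_num)
    intro i j hij
    fin_cases i <;> fin_cases j <;> simp only [y] at hij ⊢ <;>
      first
        | rfl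
        | exact absurd hij e01
        | exact absurd hij e02
        | exact absurd hij e03
        | exact absurd hij e12
        | exact absurd hij e13
        | exact absurd hij e23
        | exact absurd hij.symm e01
        | exact absurd hij.symm e02
        | exact absurd hij.symm e03
        | exact absurd hij.symm e12
        | exact absurd hij.symm e13
        | exact absurd hij.symm e23
  let f : Fin 4 × Bool → X := fun p => if p.2 then pr (y p.1) else y p.1
  have hfN : ∀ p, nf D ε (f p) = nf D ε (y p.1) := by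
    rintro ⟨i, b⟩
    cases b
    · rfl
    · exact hpr2 (y i)
  have hf : Function.Injective f := by
    rintro ⟨i, b⟩ ⟨j, b'⟩ h
    have h1 : i = j := by
      apply hN
      have := congrArg (nf D ε) h
      rw [hfN, hfN] at this
      exact this
    subst h1
    cases b <;> cases b'
    · rfl
    · exact absurd h.symm (hpr1 (y i))
    · exact absurd h (hpr1 (y i))
    · rfl
  have := Fintype.card_le_of_injective f hf
  simp at this
  omega

theorem loc5 (c : G) (hc : Setting G X c) (D : Subgroup G) (ε : X → ℤ) (hε : IsSign c ε)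
    (hcard : Fintype.card X ≤ 6) (s : X → ℤ) (hs : IsSign c s) (hsemi : Semi G s)
    (hinj : ∀ x y, nf D ε x = nf D ε y → s x = s y) (x₀ : X) (h0 : s x₀ = 1) (F : ℤ)
    (hF : F = ∑ x, if s x = 1 then ε x else 0) :
    (Fintype.card X = 6 ∧ (F = 1 ∨ F = -1 ∨ nf D s x₀ = 0)) ∨
      ∃ u : ℤ, (u = 1 ∨ u = -1) ∧ (∀ x, nf D ε x = u • nf D s x) ∧ 2 * F = u * Fintype.card X := by
  set A : Finset X := Finset.univ.filter (fun x => s x = 1) with hA
  have hFA : F = ∑ x ∈ A, ε x := by
    rw [hF, hA, Finset.sum_filter]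
  have hcardA : Fintype.card X = 2 * A.card := by
    have h1 : (A.card : ℤ) = ∑ x, if s x = 1 then (1 : ℤ) else 0 := by
      rw [hA, Finset.card_filter]; push_cast; rfl
    have h3 := sum_odd c hc s hs s hs.odd
    have h4 : ∀ x, s x * s x = 1 := by
      intro x
      rcases hs.sign x with h | h <;> rw [h] <;> norm_num
    have h5 : (∑ x, if s x = 1 then s x else 0) = ∑ x, if s x = 1 then (1 : ℤ) else 0 := by
      apply Finset.sum_congr rfl
      intro x _
      split_ifs with h
      · exact h
      · rfl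
    simp only [h4] at h3
    rw [h5, ← h1, Finset.sum_const, Finset.card_univ, nsmul_eq_mul, mul_one] at h3
    exact_mod_cast h3
  have hx0A : x₀ ∈ A := Finset.mem_filter.mpr ⟨Finset.mem_univ _, h0⟩
  -- the case of a constant sign
  have hconst : ∀ u : ℤ, (u = 1 ∨ u = -1) → (∀ x ∈ A, ε x = u) →
      ∃ u : ℤ, (u = 1 ∨ u = -1) ∧ (∀ x, nf D ε x = u • nf D s x) ∧
        2 * F = u * Fintype.card X := by
    intro u hu hall
    have hall' : ∀ x, ε x = u * s x := by
      intro x
      rcases hs.sign x with h | h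
      · rw [hall x (Finset.mem_filter.mpr ⟨Finset.mem_univ _, h⟩), h, mul_one]
      · have h1 : s (c • x) = 1 := by rw [hs.odd, h]; norm_num
        have h2 := hall (c • x) (Finset.mem_filter.mpr ⟨Finset.mem_univ _, h1⟩)
        rw [hε.odd] at h2
        rw [h]; linarith
    refine ⟨u, hu, ?_, ?_⟩
    · intro x
      funext g
      rw [Pi.smul_apply, smul_eq_mul]
      unfold nf
      rw [Finset.mul_sum]
      apply Finset.sum_congr rfl
      intro d _
      split_ifs with hd
      · exact hall' _
      · simp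
    · rw [hFA, Finset.sum_congr rfl hall, Finset.sum_const, nsmul_eq_mul, hcardA]
      push_cast; ring
  have hP : ∃ P : ℕ, P ≤ A.card ∧ F = 2 * (P : ℤ) - A.card ∧ P = (A.filter (fun x => ε x = 1)).card := by
    refine ⟨(A.filter (fun x => ε x = 1)).card, Finset.card_filter_le _ _, ?_, rfl⟩
    have h1 : ∀ x ∈ A, ε x = 2 * (if ε x = 1 then (1 : ℤ) else 0) - 1 := by
      intro x _
      rcases hε.sign x with h | h <;> rw [h] <;> norm_num
    rw [hFA, Finset.sum_congr rfl h1, Finset.sum_sub_distrib, ← Finset.mul_sum, Finset.card_filter]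
    push_cast
    simp
  obtain ⟨P, hP1, hP2, hP3⟩ := hP
  have hApos : 0 < A.card := Finset.card_pos.mpr ⟨x₀, hx0A⟩
  by_cases hPall : P = A.card
  · right
    apply hconst 1 (Or.inl rfl)
    intro x hx
    have h1 : A.filter (fun x => ε x = 1) = A := by
      apply Finset.eq_of_subset_of_card_le (Finset.filter_subset _ _)
      omega
    have : x ∈ A.filter (fun x => ε x = 1) := by rw [h1]; exact hx
    exact (Finset.mem_filter.mp this).2
  by_cases hP0 : P = 0
  · right
    apply hconst (-1) (Or.inr rfl)
    intro x hx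
    have h1 : A.filter (fun x => ε x = 1) = ∅ := by
      apply Finset.card_eq_zero.mp
      omega
    rcases hε.sign x with h | h
    · have : x ∈ A.filter (fun x => ε x = 1) := Finset.mem_filter.mpr ⟨hx, h⟩
      rw [h1] at this
      simp at this
    · exact h
  -- now 0 < P < card A ≤ 3
  have hA3 : A.card = 2 ∨ A.card = 3 := by omega
  rcases hA3 with hA2 | hA3
  · exfalso
    have hF0 : F = 0 := by
      have : P = 1 := by omega
      rw [hP2, this, hA2]; norm_num
    obtain ⟨a, b, hab, hAab⟩ := Finset.card_eq_two.mp hA2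
    obtain ⟨y, hy0, hAy⟩ : ∃ y, x₀ ≠ y ∧ A = {x₀, y} := by
      rw [hAab] at hx0A
      simp only [Finset.mem_insert, Finset.mem_singleton] at hx0A
      rcases hx0A with rfl | rfl
      · exact ⟨b, hab, hAab⟩
      · exact ⟨a, hab.symm, by rw [hAab, Finset.pair_comm]⟩
    have hy1 : s y = 1 := by
      have : y ∈ A := by rw [hAy]; simp
      exact (Finset.mem_filter.mp this).2
    have hsum : ∀ g : G, ε (g • x₀) + ε (g • y) = 0 := by
      intro g
      have h1 : ∑ x ∈ A, ε (g • x) = 0 := by
        have h2 := sum_odd c hc s hs (fun x => ε (g • x)) (by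
          intro x
          show ε (g • c • x) = - ε (g • x)
          rw [smul_c c hc, hε.odd])
        rw [sum_act s hs.sign hsemi x₀ h0 ε g, sum_odd c hc s hs ε hε.odd, ← hF, hF0] at h2
        rw [hA, Finset.sum_filter]
        linarith
      rw [hAy, Finset.sum_pair hy0] at h1
      exact h1
    have hny : nf D ε y = nf D ε (c • x₀) := by
      rw [nf_odd c hc D ε hε]
      funext g
      rw [Pi.neg_apply]
      unfold nf
      rw [← Finset.sum_neg_distrib]
      apply Finset.sum_congr rfl
      intro d _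
      split_ifs with hd
      · have := hsum (d * g)
        rw [mul_smul, mul_smul] at this
        linarith
      · simp
    have := hinj _ _ hny
    rw [hy1, hs.odd, h0] at this
    exact absurd this (by norm_num)
  · left
    refine ⟨by omega, ?_⟩
    have : P = 1 ∨ P = 2 := by omega
    rcases this with h | h
    · right; left; rw [hP2, h, hA3]; norm_num
    · left; rw [hP2, h, hA3]; norm_num

end loc

theorem loc : S_loc := by
  intro G X _ _ _ _ c hc D ε hε hcard s hs hsemi hinj x₀ h0 F hF
  exact ⟨loc1 c hc D ε hε s hs hsemi x₀ h0 F hF, loc2 D s hsemi x₀ h0,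
    loc3 D s hs.sign hsemi x₀ h0, loc4 c hc D ε hε hcard s hs hinj x₀ h0,
    loc5 c hc D ε hε hcard s hs hsemi hinj x₀ h0 F hF⟩

end Pool.Agent.W493.TC
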